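import Pool.Agent.Helper59_PLX.BC1

/-!
Squad PLX, row BCK: what a good block gives.
-/

set_option autoImplicit false

namespace Pool.Agent.PLX.H53

open Module

theorem bs_fr {A : Type} [AddCommGroup A] [Module ℚ A] {E : Type} [NormedAddCommGroup E]
    {f : A →+ E} {G : AddSubgroup A} (h : Dsc f G) (M : Submodule ℚ A) (r : ℝ)
    (hM : bs f (cut G M) r = M) : bs (fr f M) (Gr G M) r = ⊤ := by
  have h1 : Submodule.map M.subtype (bs (fr f M) (Gr G M) r) = M := by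
    unfold bs at hM ⊢
    rw [Submodule.map_span]
    have h2 : (M.subtype : M → A) '' (bl (fr f M) (Gr G M) r : Set M) =
        (bl f (cut G M) r : Set A) := by
      rw [← bl_fr h M r, Finset.coe_map]
      rfl
    rw [h2]
    exact hM
  have h3 : Submodule.map M.subtype (⊤ : Submodule ℚ M) = M := by
    rw [Submodule.map_top, Submodule.range_subtype]
  exact Submodule.map_injective_of_injective M.injective_subtype (h1.trans h3.symm)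

theorem bck (h1 : SepStmt) (h2 : ExsStmt) (h3 : Bc1Stmt) (h4 : ProStmt) (h5 : Bc2Stmt) :
    BckStmt := by
  classical
  intro A _ _ E _ _ Φ f G N W e m n ρ j B K hb hK hKρ hm hn hnρ
  have hH1 : (1 : ℝ) ≤ 9 * B * W.card := hb.nar.hH
  have hK1 : 1 ≤ K := by
    have h := one_le_pow₀ (n := 4) hH1
    rw [hK]
    linarith
  have hK0 : 0 ≤ K := by linarith
  have he := hb.he
  have hfd : FiniteDimensional ℚ A := hb.fin
  have hW5 : 5 ≤ W.card := by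
    have h6 := hb.large
    have h7 := hb.hB
    have h8 : (5 : ℝ) ≤ W.card := by linarith
    exact_mod_cast h8
  obtain ⟨t₁, ht1, t₂, ht2, ht12⟩ := Finset.one_lt_card.1 (show 1 < W.card by omega)
  have hex : ∀ k l : ℝ, ∃ T : Module.End ℚ (N t₁), k ∈ W ∧ l ∈ W ∧ k ≠ t₂ ∧ l ≠ t₁ →
      IsS N t₁ t₂ k l T := by
    intro k l
    by_cases hc : k ∈ W ∧ l ∈ W ∧ k ≠ t₂ ∧ l ≠ t₁
    · obtain ⟨T, hT⟩ := h2 A N W t₁ t₂ k l hb.two ht1 ht2 hc.1 hc.2.1 hc.2.2.1 hc.2.2.2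
      exact ⟨T, fun _ => hT⟩
    · exact ⟨0, fun h => absurd h hc⟩
  choose S hS using hex
  have hS' : ∀ k ∈ W, ∀ l ∈ W, k ≠ t₁ → k ≠ t₂ → l ≠ t₁ → l ≠ t₂ →
      IsS N t₁ t₂ k l (S k l) := fun k hk l hl _ hk2 hl1 _ => hS k l ⟨hk, hl, hk2, hl1⟩
  obtain ⟨hb1, hb2⟩ := h3 A E Φ f G N W e m ρ j B K t₁ t₂ S hb ht1 ht2 ht12 hS' hK hKρ hm
  obtain ⟨x, hxG, hx0, hxρ, hmin, hax⟩ := H59.exists_short hb ht1
  have hEig : ∀ q ∈ Qs N W t₁ t₂ S, Eig (H59.reL Φ (N t₁)) q := by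
    intro q hq y
    rw [H59.reL_apply, H59.reL_apply, hb1 q hq y, Complex.re_ofReal_mul]
  have hxA : ‖f (x : A)‖ ≤ ρ := hxρ
  have hx1 : ‖f (x : A)‖ ≤ 1 := hxA.trans hb.hρ
  have hxne : (x : A) ≠ 0 := fun h => hx0 (Subtype.ext h)
  have hKx : 256 * (9 * B * W.card) ^ 4 * ‖f (x : A)‖ ≤ 1 := by
    rw [← hK]
    have h6 : K ≤ K ^ ((e + 1) * e + 1) := by
      have h7 := pow_le_pow_right₀ hK1 (show 1 ≤ (e + 1) * e + 1 by omega)
      rwa [pow_one] at h7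
    exact le_trans (mul_le_mul h6 hxA (norm_nonneg _) (by positivity)) hKρ
  have hm1 : 1 ≤ m := by
    have h6 : (1 : ℝ) ≤ K ^ ((e + 1) * e) := one_le_pow₀ hK1
    have h7 : (1 : ℝ) ≤ 3 * ((e : ℝ) + 1) * K ^ ((e + 1) * e) := by
      have h8 : (0 : ℝ) ≤ e := Nat.cast_nonneg e
      nlinarith
    have h8 : (1 : ℝ) ≤ (3 * ((e : ℝ) + 1) * K ^ ((e + 1) * e)) ^ e := one_le_pow₀ h7
    have h9 : (1 : ℝ) ≤ m := by
      refine le_trans ?_ hm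
      nlinarith
    exact_mod_cast h9
  have hpro : ∀ ψ : N t₁ →ₗ[ℚ] ℝ, (∀ q ∈ Qs N W t₁ t₂ S, Eig ψ q) → ψ x = 0 → ψ = 0 :=
    fun ψ hψ hψx => h4 A E Φ f G N W e ρ j B t₁ t₂ S x ψ hb ht1 ht2 ht12 hS' hxG hx0 hKx hψ hψx
  have hinj : ∀ y ∈ Gr G (N t₁), ‖fr f (N t₁) y‖ ≤ 1 → H59.reL Φ (N t₁) y = 0 → y = 0 := by
    intro y hy hy1 hy0
    refine Subtype.ext ?_
    refine hb.ppr (y : A) hy ?_ (eq_zero_of_re (hb.slo t₁ ht1 y y.2) hy0)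
    have h6 : ‖f (y : A)‖ ≤ 1 := hy1
    linarith
  obtain ⟨w, hw, hwl⟩ := h5 (N t₁) E (fr f (N t₁)) (Gr G (N t₁)) (Qs N W t₁ t₂ S)
    (H59.reL Φ (N t₁)) e m n (K ^ (e + 1)) ρ x (hb.dsc.fr (N t₁)) inferInstance (hb.dim t₁ ht1)
    he hb.hρ0 (one_le_pow₀ hK1) hm1 (bs_fr hb.dsc (N t₁) ρ (hb.gen t₁ ht1)) hinj hEig
    (fun l hl hlen => ⟨fun y hy hyρ =>
      ((hb2 l hl hlen).1 y hy hyρ).mono (pow_le_pow_right₀ hK1 hlen), (hb2 l hl hlen).2⟩)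
    hn hnρ hax hpro
  have hxpos : 0 < ‖f (x : A)‖ := norm_pos hb.dsc hxG hxne
  have hsep := h1 (N t₁) E (fr f (N t₁)) (Gr G (N t₁)) 1 ‖f (x : A)‖ e (hb.dsc.fr (N t₁))
    zero_le_one hxpos hmin ((Submodule.finrank_le _).trans (hb.dim t₁ ht1).le)
  rw [cnt_fr hb.dsc] at hsep
  have hj3 : ‖f (x : A)‖ ^ e * j ≤ 3 ^ e := by
    have h6 : j ≤ (1 + 2 * 1 / ‖f (x : A)‖) ^ e := (hb.lines t₁ ht1).trans hsep
    calc ‖f (x : A)‖ ^ e * j ≤ ‖f (x : A)‖ ^ e * (1 + 2 * 1 / ‖f (x : A)‖) ^ e :=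
          mul_le_mul_of_nonneg_left h6 (by positivity)
      _ = (‖f (x : A)‖ + 2) ^ e := by
          rw [← mul_pow]
          congr 1
          field_simp
      _ ≤ 3 ^ e := pow_le_pow_left₀ (by positivity) (by linarith) e
  choose l hl1 hl2 hl3 using hwl
  have hmlt : ∀ i, Mlt (fr f (N t₁)) (Gr G (N t₁)) (K ^ e) (l i).prod.1 x := fun i =>
    ((hb2 (l i) (hl2 i) ((hl1 i).trans (Nat.le_succ e))).1 x hxG hxρ).mono
      (pow_le_pow_right₀ hK1 (hl1 i))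
  choose c hc1 hc2 hc3 hc4 using hmlt
  refine ⟨t₁, ht1, x, ⟨hxG, x.2⟩, hxne, hx1, hj3, w, c, hw, fun i => ⟨hc1 i, hc2 i, ?_, ?_⟩⟩
  · rw [hl3 i]
    exact (hb2 (l i) (hl2 i) ((hl1 i).trans (Nat.le_succ e))).2
  · refine ⟨((c i • (l i).prod.1 x : N t₁) : A), hc3 i, ?_, hc4 i⟩
    have h6 : H59.reL Φ (N t₁) ((l i).prod.1 x) = (l i).prod.2 * H59.reL Φ (N t₁) x :=
      eig_word hEig (l i) (hl2 i) x
    have h7 : Φ (((l i).prod.1 x : N t₁) : A) = (((l i).prod.2 : ℝ) : ℂ) * Φ (x : A) := by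
      refine eq_of_re (t := t₁) (hb.slo t₁ ht1 _ ((l i).prod.1 x).2) ?_ ?_
      · rw [Complex.im_ofReal_mul, Complex.re_ofReal_mul, hb.slo t₁ ht1 x x.2]
        ring
      · rw [Complex.re_ofReal_mul]
        exact h6
    have h8 : ((c i • (l i).prod.1 x : N t₁) : A) = c i • (((l i).prod.1 x : N t₁) : A) := rfl
    rw [h8, map_nsmul, h7, hl3 i, nsmul_eq_mul]
    push_cast
    ring

end Pool.Agent.PLX.H53
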