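import Pool.Agent.PLX.StmtsB
import Pool.Agent.Helper7_PLG.GEN
import Pool.Agent.Helper50_PLG.RTS
import Pool.Agent.Helper3_PLG.CLS
import Pool.Agent.Helper85_PLG.ROT

/-!
Squad PLX: the rows which are word for word rows of PLG.
-/

set_option autoImplicit false

namespace Pool.Agent.PLX.H53

theorem gen : GenStmt := Pool.Agent.PLG.H7.gen

theorem rts : RtsStmt := Pool.Agent.PLG.H50.rts

theorem cls : ClsStmt := Pool.Agent.PLG.H3.cls

theorem rot : RotStmt := Pool.Agent.PLG.H85.rot

end Pool.Agent.PLX.H53
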