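import Pool.Agent.PLX.StmtsC

/-!
Squad PLX: check of the dependency structure.
-/

set_option autoImplicit false

namespace Pool.Agent.PLX.H53

theorem chk
    (pkv : PkvStmt) (cov : PkvStmt → CovStmt) (sep : PkvStmt → SepStmt) (rnk : RnkStmt)
    (gru : RnkStmt → GruStmt) (sol : SolStmt) (slc : SolStmt → SlcStmt) (tra : TraStmt)
    (exs : ExsStmt) (lms : LmsStmt) (mul : TraStmt → MulStmt) (wrd : WrdStmt) (gen : GenStmt)
    (fif : FifStmt) (pol : SepStmt → PolStmt) (lib : LibStmt) (lio : LibStmt → LioStmt)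
    (kil : KilStmt) (fld : GenStmt → FldStmt) (fun_ : FunStmt)
    (bc2 : GenStmt → FifStmt → LioStmt → KilStmt → FldStmt → FunStmt → Bc2Stmt)
    (psi : PsiStmt) (prf : PrfStmt) (prc : SolStmt → PrcStmt)
    (pro : TraStmt → PsiStmt → PrfStmt → PrcStmt → ProStmt)
    (bc1 : LmsStmt → MulStmt → WrdStmt → PolStmt → Bc1Stmt)
    (bck : SepStmt → ExsStmt → Bc1Stmt → ProStmt → Bc2Stmt → BckStmt)
    (mik : PkvStmt → GruStmt → MikStmt) (blf : BlfStmt)
    (dmn : CovStmt → SlcStmt → GruStmt → DmnStmt)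
    (dpl : CovStmt → SlcStmt → GruStmt → DplStmt) (rts : RtsStmt)
    (fnl : PkvStmt → GruStmt → FnlStmt) (tpl : RtsStmt → FnlStmt → TplStmt) (cs1 : Cs1Stmt)
    (bks : CovStmt → MikStmt → BlfStmt → BckStmt → TplStmt → Cs1Stmt → BksStmt)
    (ths : CovStmt → DmnStmt → DplStmt → BksStmt → ThsStmt) (thk : ThsStmt → ThkStmt)
    (tkg : TkgStmt) (thn : CovStmt → ThnStmt) (str : ThkStmt → TkgStmt → ThnStmt → StrStmt)
    (eng : EngStmt) (prp : PrpStmt) (slp : SolStmt → SlpStmt) (cls : ClsStmt) (rot : RotStmt)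
    (prx : PrxStmt) (lad : CovStmt → PrxStmt → LadStmt) (par : ParStmt)
    (ma1 : CovStmt → SlpStmt → StrStmt → EngStmt → PrpStmt → ClsStmt → LadStmt → ParStmt →
      Ma1Stmt)
    (ma2 : Ma1Stmt → RotStmt → Ma2Stmt) (gap : Ma2Stmt → GapStmt)
    (gpl : GapStmt → Pool.Agent.FRE.GplStmt) : Pool.Agent.FRE.GplStmt := by
  have hcov := cov pkv
  have hsep := sep pkv
  have hgru := gru rnk
  have hslc := slc sol
  have hpol := pol hsep
  have hfld := fld gen
  have hbc2 := bc2 gen fif (lio lib) kil hfld fun_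
  have hprc := prc sol
  have hpro := pro tra psi prf hprc
  have hbc1 := bc1 lms (mul tra) wrd hpol
  have hbck := bck hsep exs hbc1 hpro hbc2
  have hmik := mik pkv hgru
  have hfnl := fnl pkv hgru
  have htpl := tpl rts hfnl
  have hbks := bks hcov hmik blf hbck htpl cs1
  have hths := ths hcov (dmn hcov hslc hgru) (dpl hcov hslc hgru) hbks
  have hstr := str (thk hths) tkg (thn hcov)
  have hma1 := ma1 hcov (slp sol) hstr eng prp cls (lad hcov prx) par
  exact gpl (gap (ma2 hma1 rot))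

end Pool.Agent.PLX.H53
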