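import Pool.Agent.PLX.StmtsD
import Pool.Agent.Helper66_PLX.MA1

/-!
Squad PLX (MP_1fc801_co), row MU1: the main theorem, uniform in the density (after the proof of
row MA1 by helper66).
-/

set_option autoImplicit false

namespace Pool.Agent.PLX.H53

open Module Pool.Agent.PLX Pool.Agent.PLX.H66

/-- the last estimate -/
theorem finalU (a : ℕ) (K D n n₁ p M : ℝ) (hD : 1 ≤ D) (hK : 1 ≤ K) (hp : 3 ≤ p) (hpn : p ≤ n)
    (hn : n ≤ D * p ^ 2) (hn₁ : 0 ≤ n₁) (hM : 0 ≤ M)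
    (h : p ≤ (16 * (1 + Real.log n)) ^ a * (K * (Real.sqrt n₁ * M))) :
    1 / ((16 * (3 + Real.log D)) ^ a * K) * p ≤ Real.sqrt n₁ * Real.log p ^ a * M := by
  have hlp := MA1.one_le_log hp
  have hlD : 0 ≤ Real.log D := Real.log_nonneg hD
  have hln : Real.log n ≤ Real.log D + 2 * Real.log p := by
    have h1 : Real.log (p ^ 2) = 2 * Real.log p := by
      rw [Real.log_pow]
      norm_num
    rw [← h1, ← Real.log_mul (by linarith) (by positivity)]
    exact Real.log_le_log (by linarith) hn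
  have hln1 : 1 ≤ Real.log n := hlp.trans (Real.log_le_log (by linarith) hpn)
  have hYle : (16 * (1 + Real.log n)) ^ a ≤ (16 * (3 + Real.log D)) ^ a * Real.log p ^ a := by
    rw [← mul_pow]
    refine pow_le_pow_left₀ (by linarith) ?_ a
    nlinarith [mul_nonneg hlD (sub_nonneg.2 hlp)]
  have hC0 : 0 < (16 * (3 + Real.log D)) ^ a := by positivity
  have hs : 0 ≤ Real.sqrt n₁ := Real.sqrt_nonneg _
  rw [div_mul_eq_mul_div, one_mul, div_le_iff₀ (by positivity)]
  calc p ≤ (16 * (1 + Real.log n)) ^ a * (K * (Real.sqrt n₁ * M)) := h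
    _ ≤ ((16 * (3 + Real.log D)) ^ a * Real.log p ^ a) * (K * (Real.sqrt n₁ * M)) :=
        mul_le_mul_of_nonneg_right hYle (mul_nonneg (by linarith) (mul_nonneg hs hM))
    _ = Real.sqrt n₁ * Real.log p ^ a * M * ((16 * (3 + Real.log D)) ^ a * K) := by ring

/-- from `p √n ≤ Z n₁ M` to `p ≤ Z √n₁ M` -/
theorem halve {p n n₁ Z M : ℝ} (hn₁ : 0 < n₁) (hn : n₁ ≤ n) (hp : 0 ≤ p)
    (h : p * Real.sqrt n ≤ Z * (n₁ * M)) : p ≤ Z * (Real.sqrt n₁ * M) := by
  have hs : 0 < Real.sqrt n₁ := Real.sqrt_pos.2 hn₁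
  have h1 : n₁ = Real.sqrt n₁ * Real.sqrt n₁ := (Real.mul_self_sqrt hn₁.le).symm
  have h2 : p * Real.sqrt n₁ ≤ (Z * (Real.sqrt n₁ * M)) * Real.sqrt n₁ := by
    calc p * Real.sqrt n₁ ≤ p * Real.sqrt n :=
          mul_le_mul_of_nonneg_left (Real.sqrt_le_sqrt hn) hp
      _ ≤ Z * (n₁ * M) := h
      _ = Z * ((Real.sqrt n₁ * Real.sqrt n₁) * M) := by rw [← h1]
      _ = _ := by ring
  exact le_of_mul_le_mul_right h2 hs

/-- **MU1** -/
theorem mu1 (hcov : CovStmt) (hslp : SlpStmt) (hstr : StrStmt) (heng : EngStmt) (hprp : PrpStmt)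
    (hcls : ClsStmt) (hlad : LadStmt) (hpar : ParStmt) : Mu1Stmt := by
  classical
  intro d
  obtain ⟨C₀, hC₀⟩ := hstr d
  obtain ⟨C, hC⟩ : ∃ C, C = C₀ + 2 := ⟨_, rfl⟩
  have hstruc : Struc d C := MA1.struc_mono (by omega) hC₀
  have hC1 : 1 ≤ C := by omega
  have hC2 : 2 ≤ C := by omega
  obtain ⟨C₃, hC₃⟩ := hlad d C 3
  obtain ⟨Cc, hCc⟩ : ∃ Cc, Cc = (C₃ + 1) * C := ⟨_, rfl⟩
  have hCc2 : 2 ≤ Cc := by
    rw [hCc]
    calc 2 ≤ C := hC2
      _ = 1 * C := (one_mul C).symm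
      _ ≤ (C₃ + 1) * C := Nat.mul_le_mul_right C (by omega)
  have hCc1 : 1 ≤ Cc := by omega
  obtain ⟨a, ha⟩ : ∃ a, a = 1 + Cc + C₃ := ⟨_, rfl⟩
  have h5d : (1 : ℝ) ≤ 5 ^ d := one_le_pow₀ (by norm_num)
  have h9d : (1 : ℝ) ≤ 9 ^ d := one_le_pow₀ (by norm_num)
  have h11d : (1 : ℝ) ≤ 11 ^ d := one_le_pow₀ (by norm_num)
  obtain ⟨B, hB1, hB⟩ := hcls (18 * 5 ^ d) Cc (by linarith) hCc1
  set D : ℝ := 9 ^ d with hD
  have hD1 : 1 ≤ D := h9d
  have hK55 : (1 : ℝ) ≤ 18 * 5 ^ d * 11 ^ d := by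
    have := one_le_mul_of_one_le_of_one_le h5d h11d
    nlinarith
  refine ⟨min (1 / 3) (1 / (D * (B + 2))),
    1 / ((16 * (3 + Real.log D)) ^ a * (18 * 5 ^ d * 11 ^ d)), a, by positivity, ?_, ?_⟩
  · have := Real.log_nonneg hD1
    positivity
  intro A _ _ E _ _ Φ f G P p₀ hd hfd hrk hvert hPne hP hnd
  have hrk' : ∀ r : ℝ, finrank ℚ (bs f G r) ≤ d := fun r => MA1.finrank_bs f G r hd hfd hrk
  set p : ℝ := (P.card : ℝ) with hp
  have hp1 : 1 ≤ p := by
    have h1 : 1 ≤ P.card := Finset.card_pos.2 hPne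
    exact Nat.one_le_cast.2 h1
  -- the differences in a system
  have hPsys : ∀ (A' : Type) (_ : AddCommGroup A') (E' : Type) (_ : NormedAddCommGroup E')
      (Φ' : A' →+ ℂ) (f' : A' →+ E') (G' : AddSubgroup A'), Dsc f' G' →
      (∀ q ∈ P, ∃ x ∈ G', ‖f' x‖ ≤ 1 ∧ Φ' x = q - p₀) → P.card ≤ cnt f' G' 1 := by
    intro A' _ E' _ Φ' f' G' hd' hP'
    have h2 : (P.image fun q => q - p₀).card = P.card :=
      Finset.card_image_of_injective _ sub_left_injective
    rw [← h2]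
    refine MA1.card_le (Φ := Φ') hd' fun u hu => ?_
    obtain ⟨q, hq, rfl⟩ := Finset.mem_image.1 hu
    exact hP' q hq
  -- the balls
  have hPn1 : p ≤ cnt f G 1 := by
    exact Nat.cast_le.2 (hPsys A _ E _ Φ f G hd hP)
  have hn14 : (cnt f G 1 : ℝ) ≤ cnt f G 4 := by exact_mod_cast cnt_mono hd (by norm_num)
  set n : ℝ := (cnt f G 4 : ℝ) with hn
  set n₁ : ℝ := (cnt f G 1 : ℝ) with hn₁
  have hpn : p ≤ n := hPn1.trans hn14
  have hn1 : 1 ≤ n := hp1.trans hpn
  have hn₁1 : 1 ≤ n₁ := hp1.trans hPn1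
  have hcov4 : n ≤ 9 ^ d * cnt f G 1 := by
    have := hcov A E f G 4 1 d hd (by norm_num) (by norm_num) (hrk' 4)
    norm_num at this
    exact this
  have hcov8 : (cnt f G 8 : ℝ) ≤ 5 ^ d * n := by
    have := hcov A E f G 8 4 d hd (by norm_num) (by norm_num) (hrk' 8)
    norm_num at this
    exact this
  have hcov5 : (cnt f G 5 : ℝ) ≤ 11 ^ d * cnt f G 1 := by
    have := hcov A E f G 5 1 d hd (by norm_num) (by norm_num) (hrk' 5)
    norm_num at this
    exact this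
  have h5K : (cnt f G 5 : ℝ) ≤ 11 ^ d * n₁ := hcov5
  -- the number of distances is at least one
  have hnd1 : (1 : ℝ) ≤ nd P := by
    obtain ⟨q, hq⟩ := hPne
    have : 0 < nd P := by
      unfold nd
      exact Finset.card_pos.2 ⟨_, Finset.mem_image_of_mem _ (Finset.mk_mem_product hq hq)⟩
    exact_mod_cast this
  have hndp : n₁ * nd P ≤ 1 / 3 * p ^ 2 :=
    hnd.trans (mul_le_mul_of_nonneg_right (min_le_left _ _) (by positivity))
  have hnp2 : n₁ ≤ p ^ 2 := by
    nlinarith [mul_le_mul_of_nonneg_left hnd1 (by linarith : (0 : ℝ) ≤ n₁), sq_nonneg p]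
  have hp3 : 3 ≤ p := by
    have h1 : p * 1 ≤ n₁ * nd P := mul_le_mul hPn1 hnd1 (by norm_num) (by linarith)
    nlinarith
  have hnD : n ≤ D * p ^ 2 :=
    hcov4.trans (mul_le_mul_of_nonneg_left hnp2 (by linarith))
  -- the set of the images
  obtain ⟨S, hS⟩ : ∃ S : Finset ℂ, S = (bl f G 4).image Φ := ⟨_, rfl⟩
  have memS : ∀ u, u ∈ S ↔ ∃ x ∈ G, ‖f x‖ ≤ 4 ∧ Φ x = u := by
    intro u
    rw [hS, Finset.mem_image]
    constructor
    · rintro ⟨x, hx, rfl⟩
      exact ⟨x, ((mem_bl hd).1 hx).1, ((mem_bl hd).1 hx).2, rfl⟩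
    · rintro ⟨x, h1, h2, rfl⟩
      exact ⟨x, (mem_bl hd).2 ⟨h1, h2⟩, rfl⟩
  have hSneg : ∀ u ∈ S, -u ∈ S := by
    intro u hu
    obtain ⟨x, h1, h2, rfl⟩ := (memS u).1 hu
    exact (memS _).2 ⟨-x, G.neg_mem h1, by rw [map_neg, norm_neg]; exact h2, map_neg Φ x⟩
  have hS0 : (0 : ℂ) ∈ S :=
    (memS 0).2 ⟨0, G.zero_mem, by rw [map_zero, norm_zero]; norm_num, map_zero Φ⟩
  have hSre : ∀ u ∈ S, u.re = 0 → u = 0 := by
    intro u hu h0
    obtain ⟨x, h1, h2, rfl⟩ := (memS u).1 hu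
    exact hvert x h1 h2 h0
  have hSn : (S.card : ℝ) ≤ n := by
    exact Nat.cast_le.2 (MA1.card_le (Φ := Φ) hd fun u hu => (memS u).1 hu)
  -- energy
  obtain ⟨T, hT⟩ : ∃ T : Finset ℝ,
    T = (S.filter (fun u => u ≠ 0)).image (fun u => u.im / u.re) := ⟨_, rfl⟩
  obtain ⟨m, hm⟩ : ∃ m : ℝ → ℕ, m = fun t => (S.filter (fun u => u.im = t * u.re)).card :=
    ⟨_, rfl⟩
  have hmt : ∀ t, m t = (S.filter (fun u => u.im = t * u.re)).card := fun t => by rw [hm]
  obtain ⟨X, hX⟩ : ∃ X : ℝ, X = ∑ t ∈ T, (m t : ℝ) ^ 2 := ⟨_, rfl⟩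
  have hX0 : 0 ≤ X := by
    rw [hX]
    exact Finset.sum_nonneg fun t _ => sq_nonneg _
  have hBn : B * n ≤ X := by
    have h1 := heng P S (by
      intro a ha b hb a' ha' b' hb'
      obtain ⟨x1, g1, l1, e1⟩ := hP a ha
      obtain ⟨x2, g2, l2, e2⟩ := hP b hb
      obtain ⟨x3, g3, l3, e3⟩ := hP a' ha'
      obtain ⟨x4, g4, l4, e4⟩ := hP b' hb'
      refine (memS _).2 ⟨(x1 - x2) + (x3 - x4),
        G.add_mem (G.sub_mem g1 g2) (G.sub_mem g3 g4), ?_, ?_⟩
      · rw [map_add, map_sub, map_sub]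
        have n1 := norm_add_le (f x1 - f x2) (f x3 - f x4)
        have n2 := norm_sub_le (f x1) (f x2)
        have n3 := norm_sub_le (f x3) (f x4)
        linarith
      · rw [map_add, map_sub, map_sub, e1, e2, e3, e4]
        ring)
    have h2 := hprp S hSre
    have h3 : ((((S ×ˢ S).filter
        (fun p => p.1.re * p.2.re + p.1.im * p.2.im = 0)).card : ℕ) : ℝ) ≤ 2 * n + X := by
      have h4 : ((((S ×ˢ S).filter
        (fun p => p.1.re * p.2.re + p.1.im * p.2.im = 0)).card : ℕ) : ℝ) ≤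
          ((2 * S.card + ∑ t ∈ T, (m t) ^ 2 : ℕ) : ℝ) := by
        rw [hT, hm]
        exact_mod_cast h2
      push_cast at h4
      rw [hX]
      linarith
    have h5 : p ^ 2 ≤ nd P * (2 * n + X) :=
      h1.trans (mul_le_mul_of_nonneg_left h3 (Nat.cast_nonneg _))
    have h6 : n₁ * nd P ≤ 1 / (D * (B + 2)) * p ^ 2 :=
      hnd.trans (mul_le_mul_of_nonneg_right (min_le_right _ _) (by positivity))
    have h8 : 0 < D * (B + 2) := mul_pos (by linarith) (by linarith)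
    have h7 : n₁ * p ^ 2 ≤ 1 / (D * (B + 2)) * p ^ 2 * (2 * n + X) := by
      calc n₁ * p ^ 2 ≤ n₁ * (nd P * (2 * n + X)) :=
            mul_le_mul_of_nonneg_left h5 (by linarith)
        _ = n₁ * nd P * (2 * n + X) := by ring
        _ ≤ _ := mul_le_mul_of_nonneg_right h6 (by linarith)
    have h9 : n₁ * (D * (B + 2)) ≤ 2 * n + X := by
      have h10 : p ^ 2 * (n₁ * (D * (B + 2))) ≤ p ^ 2 * (2 * n + X) := by
        have h11 : 1 / (D * (B + 2)) * p ^ 2 * (2 * n + X) * (D * (B + 2)) =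
            p ^ 2 * (2 * n + X) := by
          field_simp
        calc p ^ 2 * (n₁ * (D * (B + 2))) = n₁ * p ^ 2 * (D * (B + 2)) := by ring
          _ ≤ 1 / (D * (B + 2)) * p ^ 2 * (2 * n + X) * (D * (B + 2)) :=
              mul_le_mul_of_nonneg_right h7 h8.le
          _ = _ := h11
      exact le_of_mul_le_mul_left h10 (by positivity)
    have h12 : n * (B + 2) ≤ n₁ * (D * (B + 2)) := by
      calc n * (B + 2) ≤ D * n₁ * (B + 2) := mul_le_mul_of_nonneg_right hcov4 (by linarith)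
        _ = _ := by ring
    linarith
  -- the slopes
  have hT3 : ∀ t ∈ T, 3 ≤ m t := by
    intro t ht
    rw [hT] at ht
    obtain ⟨u, hu, rfl⟩ := Finset.mem_image.1 ht
    obtain ⟨hu1, hu2⟩ := Finset.mem_filter.1 hu
    rw [hmt]
    exact MA1.three_le hSneg hS0 hu1 fun h => hu2 (hSre u hu1 h)
  have hTn : ∀ t, (m t : ℝ) ≤ n := by
    intro t
    rw [hmt]
    exact (Nat.cast_le.2 (Finset.card_filter_le _ _)).trans hSn
  have hln : 0 ≤ Real.log n := Real.log_nonneg hn1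
  have hlog1 : (1 : ℝ) ≤ 16 * (1 + Real.log n) := by linarith
  -- a slope with many elements gives a rich line
  have slope : ∀ (t Z : ℝ), 1 ≤ Z → Real.sqrt n ≤ Z * m t → ∃ q ∈ P,
      p ≤ Z * 11 ^ d * (Real.sqrt n₁ *
        ((P.filter (fun q' => q' - q ∈ lin ⟨1, t⟩)).card : ℝ)) := by
    intro t Z hZ ht
    obtain ⟨q, hq, hqM⟩ := hpar A E Φ f G P p₀ ⟨1, t⟩ hd hPne hP
    refine ⟨q, hq, ?_⟩
    have hm1 : (m t : ℝ) ≤ cnt f (lz Φ G ⟨1, t⟩) 4 := by
      rw [hmt]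
      refine Nat.cast_le.2 (MA1.card_le (Φ := Φ) (hd.lz _) fun u hu => ?_)
      obtain ⟨hu1, hu2⟩ := Finset.mem_filter.1 hu
      obtain ⟨x, g1, l1, rfl⟩ := (memS u).1 hu1
      exact ⟨x, MA1.mem_lz_slope g1 hu2, l1, rfl⟩
    refine halve (by linarith) hn14 (by linarith) ?_
    calc p * Real.sqrt n ≤ p * (Z * m t) := mul_le_mul_of_nonneg_left ht (by linarith)
      _ = Z * (p * m t) := by ring
      _ ≤ Z * (p * cnt f (lz Φ G ⟨1, t⟩) 4) :=
          mul_le_mul_of_nonneg_left (mul_le_mul_of_nonneg_left hm1 (by linarith)) (by linarith)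
      _ ≤ Z * (cnt f G 5 * ((P.filter (fun q' => q' - q ∈ lin ⟨1, t⟩)).card : ℝ)) :=
          mul_le_mul_of_nonneg_left hqM (by linarith)
      _ ≤ Z * (11 ^ d * n₁ * ((P.filter (fun q' => q' - q ∈ lin ⟨1, t⟩)).card : ℝ)) :=
          mul_le_mul_of_nonneg_left (mul_le_mul_of_nonneg_right h5K (Nat.cast_nonneg _))
            (by linarith)
      _ = _ := by ring
  have hne1 : ∀ t : ℝ, (⟨1, t⟩ : ℂ) ≠ 0 := fun t h => by
    have := congrArg Complex.re h
    simp at this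
  -- the rich line
  have key : ∃ z : ℂ, z ≠ 0 ∧ ∃ q ∈ P, p ≤ (16 * (1 + Real.log n)) ^ a *
      (18 * 5 ^ d * 11 ^ d *
        (Real.sqrt n₁ * ((P.filter (fun q' => q' - q ∈ lin z)).card : ℝ))) := by
    have hsn : 0 ≤ Real.sqrt n₁ := Real.sqrt_nonneg _
    by_cases hcase : ∃ t ∈ T, n < (m t : ℝ) ^ 2
    · obtain ⟨t, -, ht⟩ := hcase
      have h4 : Real.sqrt n ≤ 1 * m t := by
        rw [one_mul, Real.sqrt_le_left (Nat.cast_nonneg _)]
        exact ht.le
      obtain ⟨q, hq, h⟩ := slope t 1 le_rfl h4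
      refine ⟨⟨1, t⟩, hne1 t, q, hq, h.trans ?_⟩
      have h5 : (1 : ℝ) ≤ (16 * (1 + Real.log n)) ^ a := one_le_pow₀ hlog1
      have h7 : 0 ≤ Real.sqrt n₁ * ((P.filter (fun q' => q' - q ∈ lin ⟨1, t⟩)).card : ℝ) :=
        mul_nonneg hsn (Nat.cast_nonneg _)
      have h8 : 1 * 11 ^ d * (Real.sqrt n₁ *
          ((P.filter (fun q' => q' - q ∈ lin ⟨1, t⟩)).card : ℝ)) ≤ 18 * 5 ^ d * 11 ^ d *
          (Real.sqrt n₁ * ((P.filter (fun q' => q' - q ∈ lin ⟨1, t⟩)).card : ℝ)) := by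
        refine mul_le_mul_of_nonneg_right ?_ h7
        refine mul_le_mul_of_nonneg_right ?_ (by linarith)
        linarith
      exact h8.trans (le_mul_of_one_le_left (mul_nonneg (by linarith) h7) h5)
    · have hcase' : ∀ t ∈ T, (m t : ℝ) ^ 2 ≤ n := fun t ht =>
        not_lt.1 fun h => hcase ⟨t, ht, h⟩
      have hSS : (((S ×ˢ S).image (fun p => p.1 + p.2)).card : ℝ) ≤ cnt f G 8 := by
        refine Nat.cast_le.2 (MA1.card_le (Φ := Φ) hd fun u hu => ?_)
        obtain ⟨⟨v, w⟩, hvw, rfl⟩ := Finset.mem_image.1 hu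
        obtain ⟨hv, hw⟩ := Finset.mem_product.1 hvw
        obtain ⟨x, g1, l1, e1⟩ := (memS v).1 hv
        obtain ⟨y, g2, l2, e2⟩ := (memS w).1 hw
        refine ⟨x + y, G.add_mem g1 g2, ?_, ?_⟩
        · rw [map_add]
          have := norm_add_le (f x) (f y)
          linarith
        · rw [map_add, e1, e2]
      have hj : ∀ j : ℝ, 3 ≤ j →
          ((T.filter (fun t => j ≤ (m t : ℝ))).card : ℝ) * j ^ 2 ≤ 18 * 5 ^ d * n := by
        intro j hj3
        set Θ := T.filter (fun t => j ≤ (m t : ℝ)) with hΘ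
        have hK0 : n ≤ 18 * 5 ^ d * n := by
          have : 1 ≤ 18 * (5 : ℝ) ^ d := by linarith
          nlinarith
        rcases Nat.lt_or_ge Θ.card 2 with h2 | h2
        · rcases Finset.eq_empty_or_nonempty Θ with h0 | ⟨t, ht⟩
          · rw [h0]
            simp only [Finset.card_empty, Nat.cast_zero, zero_mul]
            linarith
          · have h3 : Θ.card = 1 := by
              have := Finset.card_pos.2 ⟨t, ht⟩
              omega
            obtain ⟨ht1, ht2⟩ := Finset.mem_filter.1 ht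
            rw [h3, Nat.cast_one, one_mul]
            calc j ^ 2 ≤ (m t : ℝ) ^ 2 := pow_le_pow_left₀ (by linarith) ht2 2
              _ ≤ n := hcase' t ht1
              _ ≤ _ := hK0
        · have h3 := hslp S Θ j hSneg hj3 fun t ht => by
            have := (Finset.mem_filter.1 ht).2
            rw [hmt] at this
            exact this
          have h5 : (2 : ℝ) ≤ Θ.card := by exact_mod_cast h2
          have h6 : (Θ.card : ℝ) * j ^ 2 ≤ 2 * (((Θ.card : ℝ) - 1) * j ^ 2) := by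
            nlinarith [sq_nonneg j]
          calc (Θ.card : ℝ) * j ^ 2 ≤ 2 * (((Θ.card : ℝ) - 1) * j ^ 2) := h6
            _ ≤ 2 * (9 * (5 ^ d * n)) := by linarith
            _ = _ := by ring
      obtain ⟨L, j, hL2, hLn, hLj, hLN⟩ := hB T m n hn1
        (fun t ht => ⟨hT3 t ht, hTn t⟩) hj (by rw [← hX]; exact hBn)
      have hL1 : 1 ≤ L := by linarith
      have hL0 : 0 < L := by linarith
      have hj4 : 4 ≤ j := by
        calc (4 : ℝ) = 2 ^ 2 := by norm_num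
          _ ≤ L ^ 2 := pow_le_pow_left₀ (by norm_num) hL2 2
          _ ≤ L ^ Cc := pow_le_pow_right₀ hL1 hCc2
          _ ≤ j := hLj
      rcases Nat.lt_or_ge (T.filter (fun t => j ≤ (m t : ℝ))).card 2 with hΘ2 | hΘ2
      · rcases Finset.eq_empty_or_nonempty (T.filter (fun t => j ≤ (m t : ℝ))) with h0 | ⟨t, ht⟩
        · exfalso
          rw [h0] at hLN
          simp only [Finset.card_empty, Nat.cast_zero, mul_zero, zero_mul] at hLN
          linarith
        · have h3 : (T.filter (fun t => j ≤ (m t : ℝ))).card = 1 := by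
            have := Finset.card_pos.2 ⟨t, ht⟩
            omega
          rw [h3, Nat.cast_one, mul_one] at hLN
          have hjm := (Finset.mem_filter.1 ht).2
          have h4 : n ≤ L * (m t : ℝ) ^ 2 :=
            hLN.trans (mul_le_mul_of_nonneg_left (pow_le_pow_left₀ (by linarith) hjm 2) hL0.le)
          obtain ⟨q, hq, h⟩ := slope t L hL1 (MA1.sqrt_le hL1 (Nat.cast_nonneg _) h4)
          refine ⟨⟨1, t⟩, hne1 t, q, hq, h.trans ?_⟩
          have h7 : 0 ≤ Real.sqrt n₁ * ((P.filter (fun q' => q' - q ∈ lin ⟨1, t⟩)).card : ℝ) :=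
            mul_nonneg hsn (Nat.cast_nonneg _)
          have hLa : L ≤ (16 * (1 + Real.log n)) ^ a := by
            calc L ≤ 16 * (1 + Real.log n) := hLn
              _ = (16 * (1 + Real.log n)) ^ 1 := (pow_one _).symm
              _ ≤ (16 * (1 + Real.log n)) ^ a := pow_le_pow_right₀ hlog1 (by omega)
          calc L * 11 ^ d * (Real.sqrt n₁ *
                ((P.filter (fun q' => q' - q ∈ lin ⟨1, t⟩)).card : ℝ))
              = L * (11 ^ d * (Real.sqrt n₁ *
                ((P.filter (fun q' => q' - q ∈ lin ⟨1, t⟩)).card : ℝ))) := by ring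
            _ ≤ (16 * (1 + Real.log n)) ^ a * (18 * 5 ^ d * 11 ^ d * (Real.sqrt n₁ *
                ((P.filter (fun q' => q' - q ∈ lin ⟨1, t⟩)).card : ℝ))) := by
                refine mul_le_mul hLa (mul_le_mul_of_nonneg_right ?_ h7)
                  (mul_nonneg (by linarith) h7) (by linarith [one_le_pow₀ hlog1 (n := a)])
                nlinarith
      have hslope := hslp S (T.filter (fun t => j ≤ (m t : ℝ))) j hSneg (by linarith)
        fun t ht => by
          have := (Finset.mem_filter.1 ht).2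
          rw [hmt] at this
          exact this
      have hΘ2' : (2 : ℝ) ≤ (T.filter (fun t => j ≤ (m t : ℝ))).card := by exact_mod_cast hΘ2
      have hnSS : n ≤ 18 * L * (((S ×ˢ S).image (fun p => p.1 + p.2)).card : ℝ) := by
        have h6 : ((T.filter (fun t => j ≤ (m t : ℝ))).card : ℝ) * j ^ 2 ≤
            2 * ((((T.filter (fun t => j ≤ (m t : ℝ))).card : ℝ) - 1) * j ^ 2) := by
          nlinarith [sq_nonneg j]
        calc n ≤ L * (T.filter (fun t => j ≤ (m t : ℝ))).card * j ^ 2 := hLN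
          _ = L * (((T.filter (fun t => j ≤ (m t : ℝ))).card : ℝ) * j ^ 2) := by ring
          _ ≤ L * (2 * (9 * (((S ×ˢ S).image (fun p => p.1 + p.2)).card : ℝ))) :=
              mul_le_mul_of_nonneg_left (h6.trans (by linarith)) hL0.le
          _ = _ := by ring
      obtain ⟨c, hc, A', iA1, iA2, E', iE1, iE2, Φ', f', G', hd', hfd', hrk'', hppr, hlift,
        hcnt⟩ := hC₃ A E Φ f G L hd hfd hrk hL2
      have hjΘ : ∀ t ∈ T.filter (fun t => j ≤ (m t : ℝ)), j ≤ cnt f' (lp Φ' G' t) 4 := by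
        intro t ht
        refine (Finset.mem_filter.1 ht).2.trans ?_
        rw [hmt]
        refine Nat.cast_le.2 (MA1.card_le (Φ := Φ') (hd'.lp t) fun u hu => ?_)
        obtain ⟨hu1, hu2⟩ := Finset.mem_filter.1 hu
        obtain ⟨x, g1, l1, rfl⟩ := (memS u).1 hu1
        obtain ⟨x', g2, l2, e2⟩ := hlift x g1
        exact ⟨x', mem_lp.2 ⟨g2, by rw [e2]; exact hu2⟩, l2.trans l1, e2⟩
      have hcnt4 : (cnt f' G' 4 : ℝ) ≤
          L ^ (c + 1) * (T.filter (fun t => j ≤ (m t : ℝ))).card * j ^ 2 := by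
        calc (cnt f' G' 4 : ℝ) ≤ L ^ c * n := hcnt 4 (by norm_num)
          _ ≤ L ^ c * (L * (T.filter (fun t => j ≤ (m t : ℝ))).card * j ^ 2) :=
              mul_le_mul_of_nonneg_left hLN (by positivity)
          _ = _ := by ring
      have hL' : 2 ≤ L ^ (c + 1) := by
        calc (2 : ℝ) ≤ L := hL2
          _ = L ^ 1 := (pow_one L).symm
          _ ≤ L ^ (c + 1) := pow_le_pow_right₀ hL1 (by omega)
      have hpowle : (L ^ (c + 1)) ^ C ≤ L ^ Cc := by
        rw [← pow_mul, hCc]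
        exact pow_le_pow_right₀ hL1 (Nat.mul_le_mul_right C (by omega))
      have hppr' : Ppr Φ' f' G' ((L ^ (c + 1)) ^ C * 4) := by
        refine hppr.mono ?_
        have h4 : (4 : ℝ) ≤ (L ^ 2) ^ C := by
          calc (4 : ℝ) = 2 ^ 2 := by norm_num
            _ ≤ L ^ 2 := pow_le_pow_left₀ (by norm_num) hL2 2
            _ = (L ^ 2) ^ 1 := (pow_one _).symm
            _ ≤ (L ^ 2) ^ C := pow_le_pow_right₀ (one_le_pow₀ hL1) hC1
        calc (L ^ (c + 1)) ^ C * 4 ≤ (L ^ (c + 1)) ^ C * (L ^ 2) ^ C :=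
              mul_le_mul_of_nonneg_left h4 (by positivity)
          _ = (L ^ (3 + c)) ^ C := by
              rw [← mul_pow, ← pow_add]
              congr 2
              omega
      obtain ⟨z, hz, hzn⟩ := hstruc A' E' Φ' f' G' (T.filter (fun t => j ≤ (m t : ℝ)))
        (L ^ (c + 1)) j 4 hd' hfd' hrk'' hL' (hpowle.trans hLj) (by norm_num) hppr' hjΘ hcnt4
      have hP' : ∀ q ∈ P, ∃ x ∈ G', ‖f' x‖ ≤ 1 ∧ Φ' x = q - p₀ := by
        intro q hq
        obtain ⟨x, g1, l1, e1⟩ := hP q hq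
        obtain ⟨x', g2, l2, e2⟩ := hlift x g1
        exact ⟨x', g2, l2.trans l1, e2.trans e1⟩
      obtain ⟨q, hq, hqM⟩ := hpar A' E' Φ' f' G' P p₀ z hd' hPne hP'
      refine ⟨z, hz, q, hq, ?_⟩
      obtain ⟨M, hM⟩ : ∃ M : ℝ, M = ((P.filter (fun q' => q' - q ∈ lin z)).card : ℝ) := ⟨_, rfl⟩
      have hM0 : 0 ≤ M := by rw [hM]; exact Nat.cast_nonneg _
      rw [← hM] at hqM ⊢
      obtain ⟨Y, hY⟩ : ∃ Y : ℝ, Y = (cnt f' (lz Φ' G' z) 4 : ℝ) := ⟨_, rfl⟩
      have hY0 : 0 ≤ Y := by rw [hY]; exact Nat.cast_nonneg _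
      rw [← hY] at hqM hzn
      have hSS' : (((S ×ˢ S).image (fun p => p.1 + p.2)).card : ℝ) ≤ cnt f' G' 8 := by
        refine Nat.cast_le.2 (MA1.card_le (Φ := Φ') hd' fun u hu => ?_)
        obtain ⟨⟨v, w⟩, hvw, rfl⟩ := Finset.mem_image.1 hu
        obtain ⟨hv, hw⟩ := Finset.mem_product.1 hvw
        obtain ⟨x, g1, l1, e1⟩ := (memS v).1 hv
        obtain ⟨y, g2, l2, e2⟩ := (memS w).1 hw
        obtain ⟨x', g1', l1', e1'⟩ := hlift x g1
        obtain ⟨y', g2', l2', e2'⟩ := hlift y g2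
        refine ⟨x' + y', G'.add_mem g1' g2', ?_, ?_⟩
        · rw [map_add]
          have := norm_add_le (f' x') (f' y')
          linarith
        · rw [map_add, e1', e2', e1, e2]
      have hcov8' : (cnt f' G' 8 : ℝ) ≤ 5 ^ d * cnt f' G' 4 := by
        have := hcov A' E' f' G' 8 4 d hd' (by norm_num) (by norm_num)
          (MA1.finrank_bs f' G' 8 hd' hfd' hrk'')
        norm_num at this
        exact this
      obtain ⟨Z, hZ⟩ : ∃ Z : ℝ, Z = 18 * L * 5 ^ d * (L ^ (c + 1)) ^ C := ⟨_, rfl⟩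
      have hLC1 : 1 ≤ (L ^ (c + 1)) ^ C := one_le_pow₀ (one_le_pow₀ hL1)
      have hZ1 : 1 ≤ Z := by
        rw [hZ]
        refine one_le_mul_of_one_le_of_one_le ?_ hLC1
        refine one_le_mul_of_one_le_of_one_le ?_ h5d
        linarith
      have hnZ : n ≤ Z * Y ^ 2 := by
        calc n ≤ 18 * L * (((S ×ˢ S).image (fun p => p.1 + p.2)).card : ℝ) := hnSS
          _ ≤ 18 * L * (5 ^ d * ((L ^ (c + 1)) ^ C * Y ^ 2)) := by
              refine mul_le_mul_of_nonneg_left ?_ (by linarith)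
              refine hSS'.trans (hcov8'.trans ?_)
              exact mul_le_mul_of_nonneg_left hzn (by linarith)
          _ = _ := by rw [hZ]; ring
      have hsq := MA1.sqrt_le hZ1 hY0 hnZ
      have h1 : (cnt f' G' 5 : ℝ) ≤ L ^ c * (11 ^ d * n₁) :=
        (hcnt 5 (by norm_num)).trans (mul_le_mul_of_nonneg_left h5K (by positivity))
      have h2 : p * Y ≤ L ^ c * (11 ^ d * n₁) * M :=
        hqM.trans (mul_le_mul_of_nonneg_right h1 hM0)
      have h3 : p * Real.sqrt n ≤ Z * L ^ c * 11 ^ d * (n₁ * M) := by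
        calc p * Real.sqrt n ≤ p * (Z * Y) := mul_le_mul_of_nonneg_left hsq (by linarith)
          _ = Z * (p * Y) := by ring
          _ ≤ Z * (L ^ c * (11 ^ d * n₁) * M) := mul_le_mul_of_nonneg_left h2 (by linarith)
          _ = _ := by ring
      have h4 := halve (by linarith) hn14 (by linarith) h3
      have h7 : 0 ≤ Real.sqrt n₁ * M := mul_nonneg hsn hM0
      have h8 : L * (L ^ (c + 1)) ^ C * L ^ c ≤ (16 * (1 + Real.log n)) ^ a := by
        calc L * (L ^ (c + 1)) ^ C * L ^ c ≤ L * L ^ Cc * L ^ c := by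
              refine mul_le_mul_of_nonneg_right ?_ (by positivity)
              exact mul_le_mul_of_nonneg_left hpowle hL0.le
          _ = L ^ (1 + Cc + c) := by rw [pow_add, pow_add, pow_one]
          _ ≤ L ^ a := pow_le_pow_right₀ hL1 (by omega)
          _ ≤ _ := pow_le_pow_left₀ hL0.le hLn a
      calc p ≤ Z * L ^ c * 11 ^ d * (Real.sqrt n₁ * M) := h4
        _ = (L * (L ^ (c + 1)) ^ C * L ^ c) * (18 * 5 ^ d * 11 ^ d * (Real.sqrt n₁ * M)) := by
            rw [hZ]; ring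
        _ ≤ _ := mul_le_mul_of_nonneg_right h8 (mul_nonneg (by linarith) h7)
  obtain ⟨z, hz, q, hq, hM⟩ := key
  refine ⟨z, hz, q, hq, ?_⟩
  exact finalU a _ D n n₁ p _ hD1 hK55 hp3 hpn hnD (by linarith) (Nat.cast_nonneg _) hM

end Pool.Agent.PLX.H53
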