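import Pool.Agent.PLX.StmtsD
import Pool.Agent.Helper94_PLX.GAP

/-!
Squad PLX (MP_1fc801_co), rows MU2, GPU, GUP: rotation of the coordinates (after helper45),
progressions (after helper94).
-/

set_option autoImplicit false

namespace Pool.Agent.PLX.H53

open Module

open Classical in
/-- ROW MU2 -/
theorem mu2 (h1 : Mu1Stmt) (h2 : RotStmt) : Mu2Stmt := by
  intro d
  obtain ⟨κ, c, a, hκ, hc, H⟩ := h1 d
  refine ⟨κ, c, a, hκ, hc, ?_⟩
  intro A _ _ E _ _ Φ f G P p₀ hD hfin hrk hP hPb hcnt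
  obtain ⟨ω, hω, hrot⟩ := h2 ((bl f G 4).image Φ)
  have hω0 : ω ≠ 0 := by
    rintro rfl
    simp at hω
  have hinv : ∀ x, ω⁻¹ * (ω * x) = x := fun x => inv_mul_cancel_left₀ hω0 x
  have hinv' : ∀ x, ω * (ω⁻¹ * x) = x := fun x => mul_inv_cancel_left₀ hω0 x
  have hΦ' : ∀ x, ((AddMonoidHom.mulLeft ω).comp Φ) x = ω * Φ x := fun x => rfl
  have hinj : Function.Injective fun x : ℂ => ω * x := mul_right_injective₀ hω0
  have hcP : (P.map ⟨fun x => ω * x, hinj⟩).card = P.card := Finset.card_map _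
  have hnd' : nd (P.map ⟨fun x => ω * x, hinj⟩) = nd P := by
    unfold nd
    congr 1
    ext r
    simp only [Finset.mem_image, Finset.mem_product, Finset.mem_map, Function.Embedding.coeFn_mk,
      Prod.exists]
    have hdist : ∀ a b : ℂ, ‖ω * a - ω * b‖ = ‖a - b‖ := by
      intro a b
      rw [← mul_sub, norm_mul, hω, one_mul]
    constructor
    · rintro ⟨_, _, ⟨⟨a, ha, rfl⟩, ⟨b, hb, rfl⟩⟩, rfl⟩
      exact ⟨a, b, ⟨ha, hb⟩, (hdist a b).symm⟩
    · rintro ⟨a, b, ⟨ha, hb⟩, rfl⟩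
      exact ⟨ω * a, ω * b, ⟨⟨a, ha, rfl⟩, ⟨b, hb, rfl⟩⟩, hdist a b⟩
  have hR := H A E ((AddMonoidHom.mulLeft ω).comp Φ) f G
    (P.map ⟨fun x => ω * x, hinj⟩) (ω * p₀) hD hfin hrk ?_ ?_ ?_ ?_
  · obtain ⟨z, hz, p', hp', hle⟩ := hR
    obtain ⟨p, hp, rfl⟩ := Finset.mem_map.1 hp'
    refine ⟨ω⁻¹ * z, mul_ne_zero (inv_ne_zero hω0) hz, p, hp, ?_⟩
    rw [hcP, Finset.filter_map, Finset.card_map] at hle
    refine hle.trans_eq ?_
    congr 3
    refine Finset.filter_congr ?_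
    intro q _
    simp only [Function.comp_apply, Function.Embedding.coeFn_mk]
    rw [mem_lin, mem_lin]
    constructor
    · rintro ⟨r, hr⟩
      refine ⟨r, ?_⟩
      rw [← hinv (q - p), mul_sub, hr]
      ring
    · rintro ⟨r, hr⟩
      refine ⟨r, ?_⟩
      rw [← mul_sub, hr]
      calc ω * ((r : ℂ) * (ω⁻¹ * z)) = r * (ω * (ω⁻¹ * z)) := by ring
        _ = r * z := by rw [hinv']
  · intro x hx hx4 h0
    rw [hΦ'] at h0 ⊢
    by_contra hne
    refine hrot (Φ x) (Finset.mem_image_of_mem Φ ((mem_bl hD).2 ⟨hx, hx4⟩)) ?_ h0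
    intro h3
    exact hne (by rw [h3, mul_zero])
  · exact hP.map
  · intro p' hp'
    obtain ⟨p, hp, rfl⟩ := Finset.mem_map.1 hp'
    obtain ⟨x, hx, hx1, hxp⟩ := hPb p hp
    refine ⟨x, hx, hx1, ?_⟩
    rw [hΦ', hxp]
    exact mul_sub _ _ _
  · rw [hnd', hcP]
    exact hcnt

open Pool.Agent.PLX.H94 in
/-- ROW GPU -/
theorem gpu (mu2 : Mu2Stmt) : GpuStmt := by
  intro d
  obtain ⟨κ, c, a, hκ, hc, H⟩ := mu2 d
  refine ⟨κ, c, a, hκ, hc, ?_⟩
  intro N g P p₀ hP hx hcard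
  have hcnt : (cnt (fm N) (iv (d := d)).range 1 : ℝ) = ∏ i, (2 * (N i : ℝ) + 1) := by
    rw [cnt_fm]
    push_cast
    rfl
  have h := H (Fin d → ℚ) (Fin d → ℝ) (ph g) (fm N) (iv (d := d)).range P p₀ (dsc_fm N)
    inferInstance ?_ hP ?_ ?_
  · rw [hcnt] at h
    exact h
  · refine (Submodule.finrank_le _).trans (le_of_eq ?_)
    rw [Module.finrank_fin_fun]
  · intro p hp
    obtain ⟨x, h1, h2⟩ := hx p hp
    refine ⟨iv x, ⟨x, rfl⟩, (norm_iv N x zero_le_one).2 fun i =>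
      (wt_le_one N i (x i)).2 (h1 i), ?_⟩
    rw [h2, add_sub_cancel_left]
    show ∑ i, ((((x i : ℤ) : ℚ)) : ℂ) * g i = ∑ i, (x i : ℂ) * g i
    refine Finset.sum_congr rfl fun i _ => ?_
    rw [Rat.cast_intCast]
  · rw [hcnt]
    exact hcard

open Classical in
/-- ROW GUP -/
theorem gup : GupStmt := by
  intro hG d K
  obtain ⟨κ, c, a, hκ, hc, H⟩ := hG d
  have hK : 0 < max K 1 := lt_of_lt_of_le one_pos (le_max_right _ _)
  refine ⟨κ / max K 1, c / Real.sqrt (max K 1), a, by positivity, by positivity, ?_⟩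
  intro N g P p₀ hP hx hcard hnd
  have hPc : (0 : ℝ) < P.card := by exact_mod_cast hP.card_pos
  set n : ℝ := ∏ i, (2 * (N i : ℝ) + 1) with hn
  have hn0 : 0 ≤ n := Finset.prod_nonneg fun i _ => by positivity
  have hnK : n ≤ max K 1 * P.card :=
    hcard.trans (mul_le_mul_of_nonneg_right (le_max_left _ _) hPc.le)
  have h1 : n * nd P ≤ κ * (P.card : ℝ) ^ 2 := by
    calc n * nd P ≤ (max K 1 * P.card) * (κ / max K 1 * P.card) :=
          mul_le_mul hnK hnd (by positivity) (by positivity)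
      _ = κ * (P.card : ℝ) ^ 2 := by
          field_simp
  obtain ⟨z, hz, p, hp, hr⟩ := H N g P p₀ hP hx h1
  refine ⟨z, hz, p, hp, ?_⟩
  have hs : 0 < Real.sqrt P.card := Real.sqrt_pos.2 hPc
  have hsK : 0 < Real.sqrt (max K 1) := Real.sqrt_pos.2 hK
  have hM : 0 ≤ (Real.log P.card) ^ a * ((P.filter (fun q => q - p ∈ lin z)).card : ℝ) := by
    have : 0 ≤ Real.log P.card := Real.log_natCast_nonneg _
    exact mul_nonneg (pow_nonneg this _) (Nat.cast_nonneg _)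
  have h2 : c * P.card ≤ (Real.sqrt (max K 1) * Real.sqrt P.card) *
      ((Real.log P.card) ^ a * ((P.filter (fun q => q - p ∈ lin z)).card : ℝ)) := by
    rw [← Real.sqrt_mul hK.le]
    refine hr.trans ?_
    rw [mul_assoc]
    exact mul_le_mul_of_nonneg_right (Real.sqrt_le_sqrt hnK) hM
  have h3 : (P.card : ℝ) = Real.sqrt P.card * Real.sqrt P.card :=
    (Real.mul_self_sqrt hPc.le).symm
  have h4 : (c * Real.sqrt P.card) * Real.sqrt P.card ≤ (Real.sqrt (max K 1) *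
      ((Real.log P.card) ^ a * ((P.filter (fun q => q - p ∈ lin z)).card : ℝ))) *
        Real.sqrt P.card := by
    calc (c * Real.sqrt P.card) * Real.sqrt P.card = c * (Real.sqrt P.card * Real.sqrt P.card) := by
          ring
      _ = c * P.card := by rw [← h3]
      _ ≤ _ := h2
      _ = _ := by ring
  have h5 := le_of_mul_le_mul_right h4 hs
  rw [div_mul_eq_mul_div, div_le_iff₀ hsK]
  calc c * Real.sqrt P.card ≤ _ := h5
    _ = _ := by ring

end Pool.Agent.PLX.H53
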